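import Pool.Agent.Lib_helper44.G5.Defs

/-! G5 block LOC: power sums and complete symmetric functions. -/

namespace Pool.Agent.G5

open Complex MeasureTheory Filter Topology
open Pool.Agent.G4

theorem LOC_geom (a : ℂ) :
    (1 - PowerSeries.C a * PowerSeries.X) * PowerSeries.mk (fun k => a ^ k) = 1 := by
  ext n
  rw [sub_mul, one_mul, map_sub, mul_assoc, PowerSeries.coeff_C_mul]
  cases n with
  | zero => simp
  | succ n =>
    rw [PowerSeries.coeff_succ_X_mul, PowerSeries.coeff_mk, PowerSeries.coeff_mk,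
      PowerSeries.coeff_one, if_neg (Nat.succ_ne_zero n), pow_succ']
    ring

/-- the power sums as a series -/
noncomputable def LOC_Phi {m : ℕ} (z : Fin m → ℂ) : PowerSeries ℂ :=
  PowerSeries.mk fun k => ∑ j, z j ^ (k + 1)

theorem LOC_dprod {m : ℕ} (z : Fin m → ℂ) (s : Finset (Fin m)) :
    PowerSeries.derivative ℂ (∏ j ∈ s, (1 - PowerSeries.C (z j) * PowerSeries.X)) =
      -((∏ j ∈ s, (1 - PowerSeries.C (z j) * PowerSeries.X)) *
        ∑ j ∈ s, PowerSeries.C (z j) * PowerSeries.mk (fun k => z j ^ k)) := by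
  classical
  induction s using Finset.induction_on with
  | empty => simp
  | insert a s ha ih =>
    rw [Finset.prod_insert ha, Finset.sum_insert ha, Derivation.leibniz, ih]
    have h1 : PowerSeries.derivative ℂ (1 - PowerSeries.C (z a) * PowerSeries.X : PowerSeries ℂ) =
        -PowerSeries.C (z a) := by
      rw [map_sub, Derivation.leibniz]
      simp
    have h2 := LOC_geom (z a)
    rw [h1]
    simp only [smul_eq_mul]
    linear_combination (-(∏ j ∈ s, (1 - PowerSeries.C (z j) * PowerSeries.X)) *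
      PowerSeries.C (z a)) * h2.symm * (-1) * (-1)

theorem LOC_newton_series {m : ℕ} (z : Fin m → ℂ) {H : PowerSeries ℂ}
    (hH : H * ∏ j, (1 - PowerSeries.C (z j) * PowerSeries.X) = 1) :
    PowerSeries.derivative ℂ H = H * LOC_Phi z := by
  have h1 : ∑ j, PowerSeries.C (z j) * PowerSeries.mk (fun k => z j ^ k) = LOC_Phi z := by
    ext n
    rw [map_sum, LOC_Phi, PowerSeries.coeff_mk]
    apply Finset.sum_congr rfl
    intro j _
    rw [PowerSeries.coeff_C_mul, PowerSeries.coeff_mk, pow_succ']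
  have h2 := LOC_dprod z Finset.univ
  rw [h1] at h2
  set E := ∏ j, (1 - PowerSeries.C (z j) * PowerSeries.X) with hE
  have h3 : PowerSeries.derivative ℂ (H * E) = 0 := by rw [hH]; simp
  rw [Derivation.leibniz, h2] at h3
  simp only [smul_eq_mul] at h3
  linear_combination H * h3 - (PowerSeries.derivative ℂ H - H * LOC_Phi z) * hH

theorem LOC_newton {m : ℕ} (z : Fin m → ℂ) {h : ℕ → ℂ}
    (hH : PowerSeries.mk h * ∏ j, (1 - PowerSeries.C (z j) * PowerSeries.X) = 1) (k : ℕ) :
    ((k : ℂ) + 1) * h (k + 1) = ∑ i ∈ Finset.range (k + 1), h i * ∑ j, z j ^ (k - i + 1) := by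
  have h1 := congrArg (PowerSeries.coeff k) (LOC_newton_series z hH)
  rw [PowerSeries.coeff_derivative, PowerSeries.coeff_mk, PowerSeries.coeff_mul,
    Finset.Nat.sum_antidiagonal_eq_sum_range_succ_mk] at h1
  rw [mul_comm, h1]
  apply Finset.sum_congr rfl
  intro i _
  rw [PowerSeries.coeff_mk, LOC_Phi, PowerSeries.coeff_mk]

theorem LOC_zero {m : ℕ} (z : Fin m → ℂ) {h : ℕ → ℂ}
    (hH : PowerSeries.mk h * ∏ j, (1 - PowerSeries.C (z j) * PowerSeries.X) = 1) : h 0 = 1 := by
  have h1 := congrArg (PowerSeries.constantCoeff) hH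
  simpa using h1

/-- the coefficients of the Euler polynomial -/
noncomputable def LOC_e {m : ℕ} (z : Fin m → ℂ) (i : ℕ) : ℂ :=
  PowerSeries.coeff i (∏ j, (1 - PowerSeries.C (z j) * PowerSeries.X))

/-- the Euler polynomial as a polynomial -/
noncomputable def LOC_P {m : ℕ} (z : Fin m → ℂ) : Polynomial ℂ :=
  ∏ j, (1 - Polynomial.C (z j) * Polynomial.X)

theorem LOC_P_coe {m : ℕ} (z : Fin m → ℂ) : ((LOC_P z : Polynomial ℂ) : PowerSeries ℂ) =
    ∏ j, (1 - PowerSeries.C (z j) * PowerSeries.X) := by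
  unfold LOC_P
  rw [← Polynomial.coeToPowerSeries.ringHom_apply, map_prod]
  apply Finset.prod_congr rfl
  intro j _
  simp

theorem LOC_e_eq {m : ℕ} (z : Fin m → ℂ) (i : ℕ) : LOC_e z i = (LOC_P z).coeff i := by
  rw [LOC_e, ← LOC_P_coe, Polynomial.coeff_coe]

theorem LOC_P_deg {m : ℕ} (z : Fin m → ℂ) : (LOC_P z).natDegree ≤ m := by
  unfold LOC_P
  refine (Polynomial.natDegree_prod_le _ _).trans ?_
  calc ∑ j : Fin m, (1 - Polynomial.C (z j) * Polynomial.X).natDegree ≤ ∑ _j : Fin m, 1 := by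
        apply Finset.sum_le_sum
        intro j _
        refine (Polynomial.natDegree_sub_le _ _).trans ?_
        rw [Polynomial.natDegree_one]
        exact max_le (by norm_num) ((Polynomial.natDegree_C_mul_le _ _).trans Polynomial.natDegree_X_le)
    _ = m := by simp

theorem LOC_e_zero {m : ℕ} (z : Fin m → ℂ) : LOC_e z 0 = 1 := by
  rw [LOC_e, PowerSeries.coeff_zero_eq_constantCoeff, map_prod]
  simp

theorem LOC_e_big {m : ℕ} (z : Fin m → ℂ) {i : ℕ} (hi : m < i) : LOC_e z i = 0 := by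
  rw [LOC_e_eq]
  exact Polynomial.coeff_eq_zero_of_natDegree_lt ((LOC_P_deg z).trans_lt hi)

/-- each `z j` is a root of the reversed polynomial -/
theorem LOC_root {m : ℕ} (z : Fin m → ℂ) (j : Fin m) :
    z j ^ m = -∑ i ∈ Finset.Icc 1 m, LOC_e z i * z j ^ (m - i) := by
  have hm : 1 ≤ m := by have := j.2; omega
  by_cases h0 : z j = 0
  · rw [h0, zero_pow (by omega), eq_comm, neg_eq_zero]
    apply Finset.sum_eq_zero
    intro i hi
    rw [Finset.mem_Icc] at hi
    by_cases him : i = m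
    · subst him
      -- the top coefficient is the product of the `- z j`
      have h1 : LOC_e z i = 0 := by
        rw [LOC_e_eq]
        apply Polynomial.coeff_eq_zero_of_natDegree_lt
        unfold LOC_P
        refine (Polynomial.natDegree_prod_le _ _).trans_lt ?_
        calc ∑ l : Fin i, (1 - Polynomial.C (z l) * Polynomial.X).natDegree
            < ∑ _l : Fin i, 1 := by
              apply Finset.sum_lt_sum
              · intro l _
                refine (Polynomial.natDegree_sub_le _ _).trans ?_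
                rw [Polynomial.natDegree_one]
                exact max_le (by norm_num) ((Polynomial.natDegree_C_mul_le _ _).trans Polynomial.natDegree_X_le)
              · exact ⟨j, Finset.mem_univ j, by rw [h0]; simp⟩
          _ = i := by simp
      rw [h1, zero_mul]
    · rw [zero_pow (by omega), mul_zero]
  · have h1 : Polynomial.eval (z j)⁻¹ (LOC_P z) = 0 := by
      unfold LOC_P
      rw [Polynomial.eval_prod]
      apply Finset.prod_eq_zero (Finset.mem_univ j)
      simp [h0]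
    rw [Polynomial.eval_eq_sum_range' (Nat.lt_succ_of_le (LOC_P_deg z))] at h1
    have h2 : ∑ i ∈ Finset.range (m + 1), LOC_e z i * z j ^ (m - i) = 0 := by
      have h3 : ∑ i ∈ Finset.range (m + 1), LOC_e z i * z j ^ (m - i) =
          z j ^ m * ∑ i ∈ Finset.range m.succ, (LOC_P z).coeff i * (z j)⁻¹ ^ i := by
        rw [Finset.mul_sum]
        apply Finset.sum_congr rfl
        intro i hi
        rw [Finset.mem_range] at hi
        rw [LOC_e_eq, pow_sub₀ _ h0 (by omega), inv_pow]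
        ring
      rw [h3, h1, mul_zero]
    have h4 : Finset.range (m + 1) = insert 0 (Finset.Icc 1 m) := by
      ext i
      simp only [Finset.mem_range, Finset.mem_insert, Finset.mem_Icc]
      omega
    rw [h4, Finset.sum_insert (by simp), LOC_e_zero, Nat.sub_zero, one_mul] at h2
    linear_combination h2

theorem LOC_rec {m : ℕ} (z : Fin m → ℂ) {h : ℕ → ℂ}
    (hH : PowerSeries.mk h * ∏ j, (1 - PowerSeries.C (z j) * PowerSeries.X) = 1) {k : ℕ}
    (hk : 1 ≤ k) : ∑ i ∈ Finset.range (k + 1), h i * LOC_e z (k - i) = 0 := by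
  have h1 := congrArg (PowerSeries.coeff k) hH
  rw [PowerSeries.coeff_mul, Finset.Nat.sum_antidiagonal_eq_sum_range_succ_mk,
    PowerSeries.coeff_one, if_neg (by omega)] at h1
  rw [← h1]
  apply Finset.sum_congr rfl
  intro i _
  rw [PowerSeries.coeff_mk, LOC_e]

theorem LOC_e_bd {m : ℕ} (z : Fin m → ℂ) (hz : ∀ j, ‖z j‖ ≤ 1) (s : Finset (Fin m)) (i : ℕ) :
    ‖PowerSeries.coeff i (∏ j ∈ s, (1 - PowerSeries.C (z j) * PowerSeries.X))‖ ≤ 2 ^ s.card := by
  classical
  induction s using Finset.induction_on generalizing i with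
  | empty =>
    rw [Finset.prod_empty, PowerSeries.coeff_one]
    split_ifs <;> simp
  | insert a s ha ih =>
    rw [Finset.prod_insert ha, Finset.card_insert_of_notMem ha, sub_mul, one_mul, map_sub,
      mul_assoc, PowerSeries.coeff_C_mul]
    have h1 : ‖PowerSeries.coeff i (PowerSeries.X *
        ∏ j ∈ s, (1 - PowerSeries.C (z j) * PowerSeries.X))‖ ≤ 2 ^ s.card := by
      cases i with
      | zero => simp
      | succ n => rw [PowerSeries.coeff_succ_X_mul]; exact ih n
    calc _ ≤ ‖PowerSeries.coeff i (∏ j ∈ s, (1 - PowerSeries.C (z j) * PowerSeries.X))‖ +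
          ‖z a * PowerSeries.coeff i (PowerSeries.X *
            ∏ j ∈ s, (1 - PowerSeries.C (z j) * PowerSeries.X))‖ := norm_sub_le _ _
      _ ≤ 2 ^ s.card + 1 * 2 ^ s.card := by
          rw [norm_mul]
          exact add_le_add (ih i) (mul_le_mul (hz a) h1 (norm_nonneg _) zero_le_one)
      _ = 2 ^ (s.card + 1) := by ring

theorem LOC_e_le {m : ℕ} (z : Fin m → ℂ) (hz : ∀ j, ‖z j‖ ≤ 1) (i : ℕ) : ‖LOC_e z i‖ ≤ 2 ^ m := by
  have h := LOC_e_bd z hz Finset.univ i
  rwa [Finset.card_univ, Fintype.card_fin] at h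

theorem LOC_phi_le {m : ℕ} (z : Fin m → ℂ) (hz : ∀ j, ‖z j‖ ≤ 1) (k : ℕ) :
    ‖∑ j, z j ^ k‖ ≤ m := by
  calc ‖∑ j, z j ^ k‖ ≤ ∑ j, ‖z j ^ k‖ := norm_sum_le _ _
    _ ≤ ∑ _j : Fin m, (1 : ℝ) := by
        apply Finset.sum_le_sum
        intro j _
        rw [norm_pow]
        exact pow_le_one₀ (norm_nonneg _) (hz j)
    _ = m := by simp

theorem LOC_h_le {m : ℕ} (z : Fin m → ℂ) (hz : ∀ j, ‖z j‖ ≤ 1) {h : ℕ → ℂ}
    (hH : PowerSeries.mk h * ∏ j, (1 - PowerSeries.C (z j) * PowerSeries.X) = 1) (k : ℕ) :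
    ‖h k‖ ≤ ((m : ℝ) + 1) ^ k := by
  induction k using Nat.strong_induction_on with
  | _ k ih =>
    cases k with
    | zero => rw [LOC_zero z hH]; simp
    | succ k =>
      have h1 := LOC_newton z hH k
      have h2 : ((k : ℝ) + 1) * ‖h (k + 1)‖ ≤ ((k : ℝ) + 1) * ((m : ℝ) + 1) ^ (k + 1) := by
        calc ((k : ℝ) + 1) * ‖h (k + 1)‖ = ‖((k : ℂ) + 1) * h (k + 1)‖ := by
              rw [norm_mul]
              congr 1
              have : ((k : ℂ) + 1) = ((k + 1 : ℕ) : ℂ) := by push_cast; rfl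
              rw [this, Complex.norm_natCast]
              push_cast; rfl
          _ ≤ ∑ i ∈ Finset.range (k + 1), ‖h i * ∑ j, z j ^ (k - i + 1)‖ := by
              rw [h1]; exact norm_sum_le _ _
          _ ≤ ∑ _i ∈ Finset.range (k + 1), ((m : ℝ) + 1) ^ k * (m + 1) := by
              apply Finset.sum_le_sum
              intro i hi
              rw [Finset.mem_range] at hi
              rw [norm_mul]
              apply mul_le_mul _ _ (norm_nonneg _) (by positivity)
              · exact (ih i (by omega)).trans (pow_le_pow_right₀ (by linarith [Nat.cast_nonneg (α := ℝ) m]) (by omega))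
              · exact (LOC_phi_le z hz _).trans (by linarith)
          _ = _ := by
              rw [Finset.sum_const, Finset.card_range, nsmul_eq_mul]
              push_cast
              ring
      exact le_of_mul_le_mul_left h2 (by positivity)

/-- the elementary symmetric functions in terms of the complete ones -/
theorem LOC_e_h {m : ℕ} (z : Fin m → ℂ) (hz : ∀ j, ‖z j‖ ≤ 1) {h : ℕ → ℂ}
    (hH : PowerSeries.mk h * ∏ j, (1 - PowerSeries.C (z j) * PowerSeries.X) = 1) {k : ℕ}
    (hk : k ∈ Finset.Icc 1 m) : ‖LOC_e z k‖ ≤ 2 ^ m * ∑ i ∈ Finset.Icc 1 m, ‖h i‖ := by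
  rw [Finset.mem_Icc] at hk
  have h1 := LOC_rec z hH hk.1
  have h4 : Finset.range (k + 1) = insert 0 (Finset.Icc 1 k) := by
    ext i
    simp only [Finset.mem_range, Finset.mem_insert, Finset.mem_Icc]
    omega
  rw [h4, Finset.sum_insert (by simp), LOC_zero z hH, one_mul, Nat.sub_zero] at h1
  have h2 : LOC_e z k = -∑ i ∈ Finset.Icc 1 k, h i * LOC_e z (k - i) := by linear_combination h1
  rw [h2, norm_neg, Finset.mul_sum]
  refine (norm_sum_le _ _).trans ?_
  refine le_trans ?_ (Finset.sum_le_sum_of_subset_of_nonneg (Finset.Icc_subset_Icc_right hk.2)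
    (fun i _ _ => by positivity))
  apply Finset.sum_le_sum
  intro i _
  rw [norm_mul, mul_comm]
  exact mul_le_mul_of_nonneg_right (LOC_e_le z hz _) (norm_nonneg _)

theorem LOC_cs (m : ℕ) (g : ℕ → ℝ) : (∑ i ∈ Finset.Icc 1 m, g i) ^ 2 ≤
    m * ∑ i ∈ Finset.Icc 1 m, g i ^ 2 := by
  have h := sq_sum_le_card_mul_sum_sq (s := Finset.Icc 1 m) (f := g)
  rwa [Nat.card_Icc, Nat.add_sub_cancel] at h

/-- LOC: power sums and complete symmetric functions -/
theorem loc_bounds_pr (m : ℕ) : ∃ C : ℝ, 0 ≤ C ∧ ∀ (z : Fin m → ℂ) (h : ℕ → ℂ), (∀ j, ‖z j‖ ≤ 1) →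
    PowerSeries.mk h * ∏ j, (1 - PowerSeries.C (z j) * PowerSeries.X) = 1 →
    (∀ k : ℕ, 1 ≤ k → ‖∑ j, z j ^ k‖ ^ 2 ≤ C * ∑ i ∈ Finset.Icc 1 m, ‖h i‖ ^ 2) ∧
    ∑ i ∈ Finset.Icc 1 m, ‖h i‖ ^ 2 ≤ C * ∑ k ∈ Finset.Icc 1 m, ‖∑ j, z j ^ k‖ ^ 2 := by
  set M : ℝ := (m : ℝ) with hM
  have hM0 : 0 ≤ M := Nat.cast_nonneg m
  set K : ℝ := 2 * M + M * (M * 2 ^ m) with hK
  have hK0 : 0 ≤ K := by positivity
  refine ⟨K ^ 2 * M + M * ((M + 1) ^ m) ^ 2 * M, by positivity, ?_⟩
  intro z h hz hH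
  set A₁ : ℝ := ∑ i ∈ Finset.Icc 1 m, ‖h i‖ with hA₁
  have hA₁0 : 0 ≤ A₁ := Finset.sum_nonneg fun i _ => norm_nonneg _
  have hle : ∀ k ∈ Finset.Icc 1 m, ‖h k‖ ≤ A₁ := fun k hk =>
    Finset.single_le_sum (f := fun i => ‖h i‖) (fun i _ => norm_nonneg _) hk
  constructor
  · intro k hk
    have h1 : ‖∑ j, z j ^ k‖ ≤ K * A₁ := by
      by_cases hkm : k ≤ m
      · obtain ⟨k', rfl⟩ : ∃ k', k = k' + 1 := ⟨k - 1, by omega⟩
        have h2 := LOC_newton z hH k'
        have h4 : Finset.range (k' + 1) = insert 0 (Finset.Icc 1 k') := by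
          ext i
          simp only [Finset.mem_range, Finset.mem_insert, Finset.mem_Icc]
          omega
        rw [h4, Finset.sum_insert (by simp), LOC_zero z hH, one_mul, Nat.sub_zero] at h2
        have h3 : ∑ j, z j ^ (k' + 1) = ((k' : ℂ) + 1) * h (k' + 1) -
            ∑ i ∈ Finset.Icc 1 k', h i * ∑ j, z j ^ (k' - i + 1) := by linear_combination -h2
        have h5 : ‖((k' : ℂ) + 1) * h (k' + 1)‖ ≤ M * A₁ := by
          rw [norm_mul]
          apply mul_le_mul _ (hle _ (Finset.mem_Icc.mpr ⟨hk, hkm⟩)) (norm_nonneg _) hM0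
          have : ((k' : ℂ) + 1) = ((k' + 1 : ℕ) : ℂ) := by push_cast; rfl
          rw [this, Complex.norm_natCast, hM]
          exact_mod_cast hkm
        have h6 : ‖∑ i ∈ Finset.Icc 1 k', h i * ∑ j, z j ^ (k' - i + 1)‖ ≤ M * A₁ := by
          refine (norm_sum_le _ _).trans ?_
          rw [hA₁, Finset.mul_sum]
          refine le_trans ?_ (Finset.sum_le_sum_of_subset_of_nonneg
            (Finset.Icc_subset_Icc_right (show k' ≤ m by omega)) (fun i _ _ => by positivity))
          apply Finset.sum_le_sum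
          intro i _
          rw [norm_mul, mul_comm]
          exact mul_le_mul_of_nonneg_right (LOC_phi_le z hz _) (norm_nonneg _)
        calc ‖∑ j, z j ^ (k' + 1)‖ ≤ _ := by rw [h3]; exact norm_sub_le _ _
          _ ≤ M * A₁ + M * A₁ := add_le_add h5 h6
          _ = 2 * M * A₁ := by ring
          _ ≤ K * A₁ := by
              apply mul_le_mul_of_nonneg_right _ hA₁0
              rw [hK]
              have : 0 ≤ M * (M * 2 ^ m) := by positivity
              linarith
      · have h2 : ∀ j, ‖z j ^ k‖ ≤ M * 2 ^ m * A₁ := by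
          intro j
          have e : z j ^ k = z j ^ (k - m) * z j ^ m := by rw [← pow_add]; congr 1; omega
          rw [e, norm_mul, norm_pow, LOC_root z j, norm_neg]
          have h3 : ‖z j‖ ^ (k - m) ≤ 1 := pow_le_one₀ (norm_nonneg _) (hz j)
          have h4 : ‖∑ i ∈ Finset.Icc 1 m, LOC_e z i * z j ^ (m - i)‖ ≤ M * (2 ^ m * A₁) := by
            refine (norm_sum_le _ _).trans ?_
            calc ∑ i ∈ Finset.Icc 1 m, ‖LOC_e z i * z j ^ (m - i)‖
                ≤ ∑ _i ∈ Finset.Icc 1 m, 2 ^ m * A₁ := by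
                  apply Finset.sum_le_sum
                  intro i hi
                  rw [norm_mul, norm_pow, ← mul_one (2 ^ m * A₁)]
                  exact mul_le_mul (LOC_e_h z hz hH hi) (pow_le_one₀ (norm_nonneg _) (hz j))
                    (by positivity) (by positivity)
              _ = M * (2 ^ m * A₁) := by
                  rw [Finset.sum_const, Nat.card_Icc, nsmul_eq_mul, Nat.add_sub_cancel]
          calc _ ≤ 1 * (M * (2 ^ m * A₁)) := mul_le_mul h3 h4 (norm_nonneg _) zero_le_one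
            _ = _ := by ring
        calc ‖∑ j, z j ^ k‖ ≤ ∑ j, ‖z j ^ k‖ := norm_sum_le _ _
          _ ≤ ∑ _j : Fin m, M * 2 ^ m * A₁ := Finset.sum_le_sum fun j _ => h2 j
          _ = M * (M * 2 ^ m) * A₁ := by
              rw [Finset.sum_const, Finset.card_univ, Fintype.card_fin, nsmul_eq_mul]
              ring
          _ ≤ K * A₁ := by
              apply mul_le_mul_of_nonneg_right _ hA₁0
              rw [hK]
              linarith
    have h7 := LOC_cs m (fun i => ‖h i‖)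
    have h8 : 0 ≤ ∑ i ∈ Finset.Icc 1 m, ‖h i‖ ^ 2 := Finset.sum_nonneg fun i _ => by positivity
    calc ‖∑ j, z j ^ k‖ ^ 2 ≤ (K * A₁) ^ 2 := pow_le_pow_left₀ (norm_nonneg _) h1 2
      _ = K ^ 2 * A₁ ^ 2 := by ring
      _ ≤ K ^ 2 * (M * ∑ i ∈ Finset.Icc 1 m, ‖h i‖ ^ 2) := by
          apply mul_le_mul_of_nonneg_left h7 (by positivity)
      _ ≤ _ := by
          have : 0 ≤ M * ((M + 1) ^ m) ^ 2 * M * ∑ i ∈ Finset.Icc 1 m, ‖h i‖ ^ 2 := by positivity
          linarith
  · set F₁ : ℝ := ∑ k ∈ Finset.Icc 1 m, ‖∑ j, z j ^ k‖ with hF₁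
    have hF₁0 : 0 ≤ F₁ := Finset.sum_nonneg fun i _ => norm_nonneg _
    have h1 : ∀ k ∈ Finset.Icc 1 m, ‖h k‖ ≤ (M + 1) ^ m * F₁ := by
      intro k hk
      rw [Finset.mem_Icc] at hk
      obtain ⟨k', rfl⟩ : ∃ k', k = k' + 1 := ⟨k - 1, by omega⟩
      have h2 := LOC_newton z hH k'
      have h3 : ‖((k' : ℂ) + 1) * h (k' + 1)‖ ≤ (M + 1) ^ m * F₁ := by
        rw [h2]
        refine (norm_sum_le _ _).trans ?_
        have h5 : ∑ i ∈ Finset.range (k' + 1), ‖h i * ∑ j, z j ^ (k' - i + 1)‖ ≤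
            ∑ i ∈ Finset.range (k' + 1), (M + 1) ^ m * ‖∑ j, z j ^ (k' - i + 1)‖ := by
          apply Finset.sum_le_sum
          intro i hi
          rw [Finset.mem_range] at hi
          rw [norm_mul]
          apply mul_le_mul_of_nonneg_right _ (norm_nonneg _)
          exact (LOC_h_le z hz hH i).trans (pow_le_pow_right₀ (by linarith) (by omega))
        refine h5.trans ?_
        rw [← Finset.mul_sum]
        apply mul_le_mul_of_nonneg_left _ (by positivity)
        have e0 : ∑ i ∈ Finset.range (k' + 1), ‖∑ j, z j ^ (k' - i + 1)‖ =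
            ∑ i ∈ Finset.range (k' + 1), ‖∑ j, z j ^ (i + 1)‖ := by
          rw [← Finset.sum_range_reflect (fun i => ‖∑ j, z j ^ (i + 1)‖) (k' + 1)]
          apply Finset.sum_congr rfl
          intro i _
          simp only [Nat.add_sub_cancel]
        have e : ∑ i ∈ Finset.range (k' + 1), ‖∑ j, z j ^ (i + 1)‖ =
            ∑ k ∈ Finset.Icc 1 (k' + 1), ‖∑ j, z j ^ k‖ := by
          rw [Finset.range_eq_Ico, Finset.sum_Ico_add' (fun k => ‖∑ j, z j ^ k‖) 0 (k' + 1) 1]
          rfl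
        rw [e0, hF₁, e]
        exact Finset.sum_le_sum_of_subset_of_nonneg (Finset.Icc_subset_Icc_right hk.2)
          (fun i _ _ => norm_nonneg _)
      have h4 : ‖h (k' + 1)‖ ≤ ‖((k' : ℂ) + 1) * h (k' + 1)‖ := by
        rw [norm_mul]
        have : ((k' : ℂ) + 1) = ((k' + 1 : ℕ) : ℂ) := by push_cast; rfl
        rw [this, Complex.norm_natCast]
        have h5 : (1 : ℝ) ≤ ((k' + 1 : ℕ) : ℝ) := by exact_mod_cast Nat.succ_le_succ (Nat.zero_le _)
        nlinarith [norm_nonneg (h (k' + 1))]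
      exact h4.trans h3
    have h7 := LOC_cs m (fun k => ‖∑ j, z j ^ k‖)
    have h8 : 0 ≤ ∑ k ∈ Finset.Icc 1 m, ‖∑ j, z j ^ k‖ ^ 2 :=
      Finset.sum_nonneg fun i _ => by positivity
    calc ∑ i ∈ Finset.Icc 1 m, ‖h i‖ ^ 2 ≤ ∑ _i ∈ Finset.Icc 1 m, ((M + 1) ^ m * F₁) ^ 2 := by
          apply Finset.sum_le_sum
          intro i hi
          exact pow_le_pow_left₀ (norm_nonneg _) (h1 i hi) 2
      _ = M * ((M + 1) ^ m) ^ 2 * F₁ ^ 2 := by
          rw [Finset.sum_const, Nat.card_Icc, nsmul_eq_mul, Nat.add_sub_cancel]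
          ring
      _ ≤ M * ((M + 1) ^ m) ^ 2 * (M * ∑ k ∈ Finset.Icc 1 m, ‖∑ j, z j ^ k‖ ^ 2) := by
          apply mul_le_mul_of_nonneg_left h7 (by positivity)
      _ ≤ _ := by
          have : 0 ≤ K ^ 2 * M * ∑ k ∈ Finset.Icc 1 m, ‖∑ j, z j ^ k‖ ^ 2 := by positivity
          linarith

end Pool.Agent.G5
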