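import Pool.Agent.Lib_helper18.G5.LOC
import Pool.Agent.Lib_helper44.G5.Defs

/-! G5 block LOCH: the tail of the complete symmetric functions. -/

namespace Pool.Agent.G5

open Complex MeasureTheory Filter Topology
open Pool.Agent.G4

theorem LOCH_step {m : ℕ} (z : Fin m → ℂ) {h : ℕ → ℂ}
    (hH : PowerSeries.mk h * ∏ j, (1 - PowerSeries.C (z j) * PowerSeries.X) = 1) {k : ℕ}
    (hk : 1 ≤ k) : ‖h k‖ ≤ ∑ i ∈ Finset.Icc 1 (min k m), ‖LOC_e z i‖ * ‖h (k - i)‖ := by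
  have h1 := LOC_rec z hH hk
  rw [← Finset.sum_range_reflect] at h1
  have h4 : Finset.range (k + 1) = insert 0 (Finset.Icc 1 k) := by
    ext i
    simp only [Finset.mem_range, Finset.mem_insert, Finset.mem_Icc]
    omega
  rw [h4, Finset.sum_insert (by simp)] at h1
  have h2 : h k = -∑ i ∈ Finset.Icc 1 k, h (k - i) * LOC_e z i := by
    have e : ∑ x ∈ Finset.Icc 1 k, h (k + 1 - 1 - x) * LOC_e z (k - (k + 1 - 1 - x)) =
        ∑ i ∈ Finset.Icc 1 k, h (k - i) * LOC_e z i := by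
      apply Finset.sum_congr rfl
      intro i hi
      rw [Finset.mem_Icc] at hi
      have e1 : k + 1 - 1 - i = k - i := by omega
      have e2 : k - (k - i) = i := by omega
      rw [e1, e2]
    rw [e] at h1
    simp only [Nat.add_sub_cancel, Nat.sub_zero, Nat.sub_self, LOC_e_zero, mul_one] at h1
    linear_combination h1
  rw [h2, norm_neg]
  refine (norm_sum_le _ _).trans ?_
  have h5 : ∑ i ∈ Finset.Icc 1 k, ‖h (k - i) * LOC_e z i‖ =
      ∑ i ∈ Finset.Icc 1 (min k m), ‖h (k - i) * LOC_e z i‖ := by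
    symm
    apply Finset.sum_subset (Finset.Icc_subset_Icc_right (min_le_left _ _))
    intro i hi hi2
    rw [Finset.mem_Icc] at hi hi2
    have : m < i := by
      by_contra hc
      exact hi2 ⟨hi.1, le_min hi.2 (by omega)⟩
    rw [LOC_e_big z this, mul_zero, norm_zero]
  rw [h5]
  apply Finset.sum_le_sum
  intro i _
  rw [norm_mul, mul_comm]

/-- LOCH -/
theorem loc_tail_pr (m : ℕ) : ∃ (C c : ℝ), 0 ≤ C ∧ 0 < c ∧ ∀ (z : Fin m → ℂ) (h : ℕ → ℂ),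
    (∀ j, ‖z j‖ ≤ 1) → PowerSeries.mk h * ∏ j, (1 - PowerSeries.C (z j) * PowerSeries.X) = 1 →
    ∑ i ∈ Finset.Icc 1 m, ‖h i‖ ^ 2 ≤ c →
    (Summable fun k : ℕ => ‖h k‖ ^ 2) ∧
      ∑' k : ℕ, ‖h (k + 1)‖ ^ 2 ≤ C * ∑ i ∈ Finset.Icc 1 m, ‖h i‖ ^ 2 := by
  set M : ℝ := (m : ℝ) with hM
  have hM0 : 0 ≤ M := Nat.cast_nonneg m
  -- the base of the geometric series
  obtain ⟨ρ, hρ0, hρ1, hρm⟩ : ∃ ρ : ℝ, 0 < ρ ∧ ρ < 1 ∧ ρ ^ (m + 1) = 1 / 2 := by
    refine ⟨(1 / 2 : ℝ) ^ ((m + 1 : ℕ) : ℝ)⁻¹, by positivity, ?_, ?_⟩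
    · exact Real.rpow_lt_one (by norm_num) (by norm_num) (by positivity)
    · rw [Real.rpow_inv_natCast_pow (by norm_num) (by omega)]
  -- the constant for delta
  set K : ℝ := M * 2 ^ m with hK
  have hK0 : 0 ≤ K := by positivity
  have hρ2 : ρ ^ 2 < 1 := by nlinarith
  refine ⟨4 * (K ^ 2 * M) / (1 - ρ ^ 2), 1 / (4 * (K ^ 2 * M + 1)), ?_, by positivity, ?_⟩
  · apply div_nonneg (by positivity); linarith
  intro z h hz hH hc
  set A : ℝ := ∑ i ∈ Finset.Icc 1 m, ‖h i‖ ^ 2 with hA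
  have hA0 : 0 ≤ A := Finset.sum_nonneg fun i _ => by positivity
  set A₁ : ℝ := ∑ i ∈ Finset.Icc 1 m, ‖h i‖ with hA₁
  have hA₁0 : 0 ≤ A₁ := Finset.sum_nonneg fun i _ => norm_nonneg _
  set δ : ℝ := ∑ i ∈ Finset.Icc 1 m, ‖LOC_e z i‖ with hδ
  have hδ0 : 0 ≤ δ := Finset.sum_nonneg fun i _ => norm_nonneg _
  have hδA : δ ≤ K * A₁ := by
    calc δ ≤ ∑ _i ∈ Finset.Icc 1 m, 2 ^ m * A₁ := Finset.sum_le_sum fun i hi => LOC_e_h z hz hH hi
      _ = K * A₁ := by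
          rw [Finset.sum_const, Nat.card_Icc, nsmul_eq_mul, Nat.add_sub_cancel]
          ring
  have hcs : A₁ ^ 2 ≤ M * A := LOC_cs m (fun i => ‖h i‖)
  have hδ2 : δ ^ 2 ≤ K ^ 2 * M * A := by
    calc δ ^ 2 ≤ (K * A₁) ^ 2 := pow_le_pow_left₀ hδ0 hδA 2
      _ = K ^ 2 * A₁ ^ 2 := by ring
      _ ≤ K ^ 2 * (M * A) := mul_le_mul_of_nonneg_left hcs (by positivity)
      _ = _ := by ring
  have hδh : δ ≤ 1 / 2 := by
    have h1 : δ ^ 2 ≤ (1 / 2) ^ 2 := by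
      refine hδ2.trans ?_
      have h2 : K ^ 2 * M * A ≤ (K ^ 2 * M + 1) * (1 / (4 * (K ^ 2 * M + 1))) :=
        mul_le_mul (by linarith) hc hA0 (by positivity)
      refine h2.trans (le_of_eq ?_)
      have : K ^ 2 * M + 1 ≠ 0 := by positivity
      field_simp
      norm_num
    exact le_of_sq_le_sq h1 (by norm_num)
  have hpow : ∀ k i : ℕ, i ≤ m → i ≤ k → ρ ^ (k - i) ≤ 2 * ρ ^ k := by
    intro k i him hik
    have h1 : ρ ^ k = ρ ^ (k - i) * ρ ^ i := by rw [← pow_add]; congr 1; omega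
    have h2 : 1 / 2 ≤ ρ ^ i := by
      rw [← hρm]
      exact pow_le_pow_of_le_one hρ0.le hρ1.le (by omega)
    rw [h1]
    have h3 : 0 < ρ ^ (k - i) := by positivity
    nlinarith
  have hgen : ∀ k : ℕ, 1 ≤ k → (∀ j < k, ‖h j‖ ≤ ρ ^ j) → ‖h k‖ ≤ 2 * δ * ρ ^ k := by
    intro k hk ih
    refine (LOCH_step z hH hk).trans ?_
    calc ∑ i ∈ Finset.Icc 1 (min k m), ‖LOC_e z i‖ * ‖h (k - i)‖
        ≤ ∑ i ∈ Finset.Icc 1 (min k m), ‖LOC_e z i‖ * (2 * ρ ^ k) := by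
          apply Finset.sum_le_sum
          intro i hi
          rw [Finset.mem_Icc] at hi
          have h1 : i ≤ k := hi.2.trans (min_le_left _ _)
          have h2 : i ≤ m := hi.2.trans (min_le_right _ _)
          exact mul_le_mul_of_nonneg_left ((ih _ (by omega)).trans (hpow k i h2 h1)) (norm_nonneg _)
      _ = (∑ i ∈ Finset.Icc 1 (min k m), ‖LOC_e z i‖) * (2 * ρ ^ k) := by rw [Finset.sum_mul]
      _ ≤ δ * (2 * ρ ^ k) := by
          apply mul_le_mul_of_nonneg_right _ (by positivity)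
          exact Finset.sum_le_sum_of_subset_of_nonneg
            (Finset.Icc_subset_Icc_right (min_le_right _ _)) (fun i _ _ => norm_nonneg _)
      _ = _ := by ring
  have hall : ∀ k : ℕ, ‖h k‖ ≤ ρ ^ k := by
    intro k
    induction k using Nat.strong_induction_on with
    | _ k ih =>
      cases k with
      | zero => rw [LOC_zero z hH]; simp
      | succ k =>
        refine (hgen (k + 1) (by omega) ih).trans ?_
        have : 0 < ρ ^ (k + 1) := by positivity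
        nlinarith
  have hk1 : ∀ k : ℕ, ‖h (k + 1)‖ ^ 2 ≤ 4 * δ ^ 2 * (ρ ^ 2) ^ k := by
    intro k
    have h1 := hgen (k + 1) (by omega) (fun j _ => hall j)
    calc ‖h (k + 1)‖ ^ 2 ≤ (2 * δ * ρ ^ (k + 1)) ^ 2 := pow_le_pow_left₀ (norm_nonneg _) h1 2
      _ = 4 * δ ^ 2 * (ρ ^ 2) ^ k * ρ ^ 2 := by rw [← pow_mul]; ring
      _ ≤ 4 * δ ^ 2 * (ρ ^ 2) ^ k * 1 := mul_le_mul_of_nonneg_left hρ2.le (by positivity)
      _ = _ := mul_one _
  have hgs : Summable fun k : ℕ => 4 * δ ^ 2 * (ρ ^ 2) ^ k :=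
    (summable_geometric_of_lt_one (by positivity) hρ2).mul_left _
  have hs1 : Summable fun k : ℕ => ‖h (k + 1)‖ ^ 2 :=
    Summable.of_nonneg_of_le (fun k => by positivity) hk1 hgs
  refine ⟨(summable_nat_add_iff 1).1 hs1, ?_⟩
  calc ∑' k : ℕ, ‖h (k + 1)‖ ^ 2 ≤ ∑' k : ℕ, 4 * δ ^ 2 * (ρ ^ 2) ^ k := hs1.tsum_le_tsum hk1 hgs
    _ = 4 * δ ^ 2 * (1 - ρ ^ 2)⁻¹ := by
        rw [tsum_mul_left, tsum_geometric_of_lt_one (by positivity) hρ2]
    _ ≤ 4 * (K ^ 2 * M * A) * (1 - ρ ^ 2)⁻¹ := by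
        apply mul_le_mul_of_nonneg_right _ (inv_nonneg.mpr (by linarith))
        linarith
    _ = _ := by rw [div_eq_mul_inv]; ring

end Pool.Agent.G5
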