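import Pool.Agent.Lib_helper44.G5.Defs
import Pool.Agent.Lib_helper82.G4.PM1
import Pool.Agent.Lib_helper93.G4.ORTH

/-! G5 block MM01: mean values of sums over prime powers. -/

namespace Pool.Agent.G5

open Complex MeasureTheory Filter Topology
open Pool.Agent.G4

variable {m : ℕ}

/-- the index set -/
def MM01_T (P K : ℕ) : Finset (ℕ × ℕ) := Nat.primesBelow (P + 1) ×ˢ Finset.Icc 1 K

theorem MM01_prime {P K : ℕ} (i : ↥(MM01_T P K)) : (i.1.1).Prime :=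
  Nat.prime_of_mem_primesBelow (Finset.mem_product.mp i.2).1

theorem MM01_pos {P K : ℕ} (i : ↥(MM01_T P K)) : 1 ≤ i.1.2 :=
  (Finset.mem_Icc.mp (Finset.mem_product.mp i.2).2).1

theorem MM01_inj {P K : ℕ} (i j : ↥(MM01_T P K)) (h : i.1.1 ^ i.1.2 = j.1.1 ^ j.1.2) : i = j := by
  have hp := MM01_prime i
  have hq := MM01_prime j
  have hi := MM01_pos i
  have hj := MM01_pos j
  have h1 : i.1.1 ∣ j.1.1 ^ j.1.2 := h ▸ dvd_pow_self _ (by omega)
  have h2 : i.1.1 = j.1.1 := (Nat.prime_dvd_prime_iff_eq hp hq).mp (hp.dvd_of_dvd_pow h1)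
  have h3 : i.1.2 = j.1.2 := by
    rw [h2] at h
    exact Nat.pow_right_injective hq.two_le h
  exact Subtype.ext (Prod.ext h2 h3)

theorem MM01_ev_one (x : Ix) : ev x 1 = 1 := by
  rw [ev, Nat.cast_one, map_one]

theorem MM01_ev_pow (x : Ix) (p k : ℕ) : ev x (p ^ k) = ev x p ^ k := by
  rw [ev, ev, Nat.cast_pow, map_pow]

theorem MM01_tsum {P K : ℕ} (g : ℕ → ℕ → ℂ) (x : Ix) :
    ∑' i : ↥(MM01_T P K), g i.1.1 i.1.2 * ev x (i.1.1 ^ i.1.2) * starRingEnd ℂ (ev x 1) =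
      ∑ p ∈ Nat.primesBelow (P + 1), ∑ k ∈ Finset.Icc 1 K, g p k * ev x p ^ k := by
  rw [tsum_fintype, ← Finset.sum_product', ← MM01_T, ← Finset.sum_coe_sort (MM01_T P K)]
  apply Finset.sum_congr rfl
  intro i _
  rw [MM01_ev_one, map_one, mul_one, MM01_ev_pow]

theorem MM01_fsum {P K : ℕ} (g : ℕ → ℕ → ℝ) :
    ∑' i : ↥(MM01_T P K), g i.1.1 i.1.2 =
      ∑ p ∈ Nat.primesBelow (P + 1), ∑ k ∈ Finset.Icc 1 K, g p k := by
  rw [tsum_fintype, ← Finset.sum_product', ← MM01_T, ← Finset.sum_coe_sort (MM01_T P K)]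

/-- MM0 -/
theorem mm0_pr (N : ℕ) (c : ℕ → ℕ → ℂ) (P K : ℕ) : ∃ Q₀ : ℕ, ∀ Q : ℕ, Q₀ ≤ Q → ∀ t : ℝ,
    ∑ x ∈ pairs N Q, ‖FF c P K x t‖ ^ 2 ≤ (VF c P K + 1) * Q ^ 2 := by
  classical
  obtain ⟨Q₀, hQ⟩ := orth_pr (ι := ↥(MM01_T P K)) N (fun i => ‖c i.1.1 i.1.2‖)
    (fun i => norm_nonneg _) (Summable.of_finite) (fun i => i.1.1 ^ i.1.2) (fun _ => 1)
    (fun i => pow_pos (MM01_prime i).pos _) (fun _ => one_pos)
    (fun i j h => MM01_inj i j (by simpa using h)) (ε := 1) one_pos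
  refine ⟨Q₀, fun Q hQQ t => ?_⟩
  have h1 := hQ Q hQQ (fun i => c i.1.1 i.1.2 *
    cexp (-((i.1.2 * Real.log i.1.1 * t : ℝ) : ℂ) * I)) (by
      intro i
      rw [norm_mul, neg_mul, ← neg_mul, ← Complex.ofReal_neg, Complex.norm_exp_ofReal_mul_I,
        mul_one])
  have h2 : ∑' i : ↥(MM01_T P K), ‖c i.1.1 i.1.2‖ ^ 2 = VF c P K :=
    MM01_fsum (fun p k => ‖c p k‖ ^ 2)
  rw [h2] at h1
  refine le_trans (le_of_eq ?_) h1
  apply Finset.sum_congr rfl
  intro x _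
  congr 2
  have h3 := MM01_tsum (P := P) (K := K)
    (fun p k => c p k * cexp (-((k * Real.log p * t : ℝ) : ℂ) * I)) x
  rw [h3, FF]
  apply Finset.sum_congr rfl
  intro p _
  apply Finset.sum_congr rfl
  intro k _
  ring

theorem MM01_cont (c : ℕ → ℕ → ℂ) (P K : ℕ) (x : Ix) : Continuous (FF c P K x) := by
  unfold FF
  fun_prop

theorem MM01_int {w : ℝ → ℝ} (hw : Continuous w) (hc : HasCompactSupport w)
    (c : ℕ → ℕ → ℂ) (P K : ℕ) (x : Ix) :
    ∫ t : ℝ, w t * (FF c P K x t).re =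
      (∑ p ∈ Nat.primesBelow (P + 1), ∑ k ∈ Finset.Icc 1 K,
        c p k * hatw w (-(k * Real.log p)) * ev x p ^ k).re := by
  have hI : ∀ (p k : ℕ), Integrable (fun t : ℝ => (c p k * ev x p ^ k) *
      ((w t : ℂ) * cexp (t * ((-(k * Real.log p) : ℝ) : ℂ) * I))) := by
    intro p k
    have := PM1_hatw_neg_int hw hc (((-(k * Real.log p) : ℝ) : ℂ) * I)
    refine Integrable.const_mul (this.congr ?_) _
    filter_upwards with t
    congr 2; ring
  have h2 : ∀ t : ℝ, w t * (FF c P K x t).re =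
      (∑ p ∈ Nat.primesBelow (P + 1), ∑ k ∈ Finset.Icc 1 K, (c p k * ev x p ^ k) *
      ((w t : ℂ) * cexp (t * ((-(k * Real.log p) : ℝ) : ℂ) * I))).re := by
    intro t
    rw [← Complex.re_ofReal_mul, FF, Finset.mul_sum]
    congr 1
    apply Finset.sum_congr rfl
    intro p _
    rw [Finset.mul_sum]
    apply Finset.sum_congr rfl
    intro k _
    have e : -((k * Real.log p * t : ℝ) : ℂ) * I = t * ((-(k * Real.log p) : ℝ) : ℂ) * I := by
      push_cast; ring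
    rw [e]; ring
  simp_rw [h2]
  have hI2 : ∀ p ∈ Nat.primesBelow (P + 1), Integrable (fun t : ℝ => ∑ k ∈ Finset.Icc 1 K,
      (c p k * ev x p ^ k) * ((w t : ℂ) * cexp (t * ((-(k * Real.log p) : ℝ) : ℂ) * I))) :=
    fun p _ => integrable_finsetSum _ fun k _ => hI p k
  have h3 := integral_re (𝕜 := ℂ) (integrable_finsetSum (Nat.primesBelow (P + 1)) hI2)
  have h4 : ∫ t : ℝ, (∑ p ∈ Nat.primesBelow (P + 1), ∑ k ∈ Finset.Icc 1 K, (c p k * ev x p ^ k) *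
      ((w t : ℂ) * cexp (t * ((-(k * Real.log p) : ℝ) : ℂ) * I))) =
      ∑ p ∈ Nat.primesBelow (P + 1), ∑ k ∈ Finset.Icc 1 K,
        c p k * hatw w (-(k * Real.log p)) * ev x p ^ k := by
    rw [integral_finsetSum _ hI2]
    apply Finset.sum_congr rfl
    intro p _
    rw [integral_finsetSum _ (fun k _ => hI p k)]
    apply Finset.sum_congr rfl
    intro k _
    rw [integral_const_mul]
    have : ∫ t : ℝ, ((w t : ℂ) * cexp (t * ((-(k * Real.log p) : ℝ) : ℂ) * I)) =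
        hatw w (-(k * Real.log p)) := rfl
    rw [this]; ring
  rw [← h4]
  exact h3

theorem MM01_sq (K : ℕ) : ∑ k ∈ Finset.Icc 1 K, 1 / (k : ℝ) ^ 2 ≤ 2 := by
  have h : ∀ K : ℕ, 1 ≤ K → ∑ k ∈ Finset.Icc 1 K, 1 / (k : ℝ) ^ 2 ≤ 2 - 1 / (K : ℝ) := by
    intro K hK
    induction K, hK using Nat.le_induction with
    | base => norm_num
    | succ n hn ih =>
      rw [Finset.sum_Icc_succ_top (by omega)]
      have hn0 : (0 : ℝ) < n := by exact_mod_cast hn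
      have h1 : 1 / ((n + 1 : ℕ) : ℝ) ^ 2 ≤ 1 / (n : ℝ) - 1 / ((n + 1 : ℕ) : ℝ) := by
        push_cast
        rw [div_sub_div _ _ hn0.ne' (by positivity), div_le_div_iff₀ (by positivity) (by positivity)]
        nlinarith
      linarith
  rcases Nat.eq_zero_or_pos K with h0 | h0
  · subst h0; norm_num
  · have h1 := h K h0
    have h2 : (0 : ℝ) ≤ 1 / K := by positivity
    linarith

/-- MM1 -/
theorem mm1_pr (N : ℕ) {w : ℝ → ℝ} (hw : Continuous w) (hc : HasCompactSupport w) {C₁ : ℝ}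
    (hd : ∀ u, ‖hatw w u‖ ≤ C₁ / (1 + u ^ 2)) (C₀ : ℝ) : ∃ C : ℝ, 0 ≤ C ∧
    ∀ (c : ℕ → ℕ → ℂ) (v : ℕ → ℝ) (P K : ℕ), MB c v P K C₀ → ∃ Q₀ : ℕ, ∀ Q : ℕ, Q₀ ≤ Q →
      ∑ x ∈ pairs N Q, (∫ t : ℝ, w t * (FF c P K x t).re) ^ 2 ≤ C * Q ^ 2 := by
  classical
  have hC1 : 0 ≤ C₁ := by
    have := (norm_nonneg _).trans (hd 0)
    simpa using this
  refine ⟨C₁ ^ 2 * (2 * |C₀|) + 1, by positivity, fun c v P K hMB => ?_⟩
  set b : ↥(MM01_T P K) → ℝ := fun i => ‖c i.1.1 i.1.2‖ *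
    (C₁ / (1 + (i.1.2 * Real.log i.1.1) ^ 2)) with hb
  have hb0 : ∀ i, 0 ≤ b i := fun i => by rw [hb]; positivity
  obtain ⟨Q₀, hQ⟩ := orth_pr (ι := ↥(MM01_T P K)) N b
    hb0 (Summable.of_finite) (fun i => i.1.1 ^ i.1.2) (fun _ => 1)
    (fun i => pow_pos (MM01_prime i).pos _) (fun _ => one_pos)
    (fun i j h => MM01_inj i j (by simpa using h)) (ε := 1) one_pos
  refine ⟨Q₀, fun Q hQQ => ?_⟩
  have h1 := hQ Q hQQ (fun i => c i.1.1 i.1.2 * hatw w (-(i.1.2 * Real.log i.1.1))) (by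
      intro i
      rw [norm_mul, hb]
      apply mul_le_mul_of_nonneg_left _ (norm_nonneg _)
      have := hd (-(i.1.2 * Real.log i.1.1))
      rwa [neg_sq] at this)
  have h2 : ∀ x ∈ pairs N Q, (∫ t : ℝ, w t * (FF c P K x t).re) ^ 2 ≤
      ‖∑' i : ↥(MM01_T P K), c i.1.1 i.1.2 * hatw w (-(i.1.2 * Real.log i.1.1)) *
        ev x (i.1.1 ^ i.1.2) * starRingEnd ℂ (ev x 1)‖ ^ 2 := by
    intro x _
    rw [MM01_int hw hc]
    have h3 := MM01_tsum (P := P) (K := K)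
      (fun p k => c p k * hatw w (-(k * Real.log p))) x
    rw [h3, ← sq_abs]
    gcongr
    exact Complex.abs_re_le_norm _
  refine (Finset.sum_le_sum h2).trans (h1.trans ?_)
  apply mul_le_mul_of_nonneg_right _ (by positivity)
  have h4 : ∑' i, b i ^ 2 ≤ C₁ ^ 2 * (2 * |C₀|) := by
    have h5 : ∑' i, b i ^ 2 = ∑ p ∈ Nat.primesBelow (P + 1), ∑ k ∈ Finset.Icc 1 K,
        (‖c p k‖ * (C₁ / (1 + (k * Real.log p) ^ 2))) ^ 2 :=
      MM01_fsum (fun p k => (‖c p k‖ * (C₁ / (1 + (k * Real.log p) ^ 2))) ^ 2)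
    rw [h5, Finset.sum_comm]
    calc ∑ k ∈ Finset.Icc 1 K, ∑ p ∈ Nat.primesBelow (P + 1),
          (‖c p k‖ * (C₁ / (1 + (k * Real.log p) ^ 2))) ^ 2
        ≤ ∑ k ∈ Finset.Icc 1 K, (C₁ ^ 2 * |C₀|) * (1 / (k : ℝ) ^ 2) := by
          apply Finset.sum_le_sum
          intro k hk
          rw [Finset.mem_Icc] at hk
          have hk0 : (0 : ℝ) < k := by exact_mod_cast hk.1
          have h6 : ∀ p ∈ Nat.primesBelow (P + 1),
              (‖c p k‖ * (C₁ / (1 + (k * Real.log p) ^ 2))) ^ 2 ≤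
              (C₁ ^ 2 * (1 / (k : ℝ) ^ 2)) * (v p / (1 + (k * Real.log p - 0) ^ 2)) := by
            intro p hp
            have h7 := hMB.c_le p (Nat.prime_of_mem_primesBelow hp) k hk.1
            set D : ℝ := 1 + (k * Real.log p) ^ 2 with hD
            have hD1 : 1 ≤ D := by rw [hD]; nlinarith [sq_nonneg ((k : ℝ) * Real.log p)]
            have hv := hMB.w_nonneg p
            rw [sub_zero, ← hD]
            have h8 : (1 / D) ^ 2 ≤ 1 / D := by
              have h9 : 1 / D ≤ 1 := by rw [div_le_one (by linarith)]; exact hD1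
              have h10 : 0 ≤ 1 / D := by positivity
              nlinarith
            calc (‖c p k‖ * (C₁ / D)) ^ 2 = C₁ ^ 2 * (‖c p k‖ ^ 2 * (1 / D) ^ 2) := by
                  rw [div_eq_mul_one_div C₁ D]; ring
              _ ≤ C₁ ^ 2 * ((v p / (k : ℝ) ^ 2) * (1 / D)) := by
                  apply mul_le_mul_of_nonneg_left _ (by positivity)
                  exact mul_le_mul h7 h8 (by positivity) (by positivity)
              _ = _ := by ring
          refine (Finset.sum_le_sum h6).trans ?_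
          rw [← Finset.mul_sum]
          have h11 := hMB.w_sum k hk.1 0
          calc (C₁ ^ 2 * (1 / (k : ℝ) ^ 2)) * ∑ p ∈ Nat.primesBelow (P + 1),
                v p / (1 + (k * Real.log p - 0) ^ 2)
              ≤ (C₁ ^ 2 * (1 / (k : ℝ) ^ 2)) * |C₀| :=
                mul_le_mul_of_nonneg_left (h11.trans (le_abs_self _)) (by positivity)
            _ = _ := by ring
      _ = (C₁ ^ 2 * |C₀|) * ∑ k ∈ Finset.Icc 1 K, 1 / (k : ℝ) ^ 2 := by rw [Finset.mul_sum]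
      _ ≤ (C₁ ^ 2 * |C₀|) * 2 := mul_le_mul_of_nonneg_left (MM01_sq K) (by positivity)
      _ = _ := by ring
  linarith

end Pool.Agent.G5
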