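import Pool.Agent.Lib_helper44.G5.Defs
import Pool.Agent.Lib_helper82.G4.PS

/-! G5 block PSUM. -/

namespace Pool.Agent.G5

open Complex MeasureTheory Filter Topology
open Pool.Agent.G4

variable {m : ℕ}

theorem PSUM_rs (S : Sys m) :
    ∃ C : ℝ, 0 ≤ C ∧ ∀ x : ℕ, ∑ n ∈ Finset.Icc 1 x, ‖S.a n‖ ^ 2 ≤ C * x := by
  obtain ⟨C, hC⟩ := S.rs
  refine ⟨C, ?_, hC⟩
  have := hC 1
  simp only [Finset.Icc_self, Finset.sum_singleton, Nat.cast_one, mul_one] at this
  exact (sq_nonneg _).trans this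

theorem PSUM_Ap (S : Sys m) {p : ℕ} (hp : p.Prime) :
    Ap S 0 p = ∑ i ∈ Finset.Icc 1 m, ‖S.a (p ^ i)‖ ^ 2 / ((p ^ i : ℕ) : ℝ) := by
  unfold Ap
  apply Finset.sum_congr rfl
  intro i _
  have hp0 : (0 : ℝ) < p := by exact_mod_cast hp.pos
  rw [mul_zero, add_zero, mul_one, Real.rpow_neg hp0.le, Real.rpow_natCast, div_eq_mul_inv,
    Nat.cast_pow]

/-- PSUM -/
theorem psum_pr (S : Sys m) : ∃ C : ℝ, 0 ≤ C ∧ (∀ p : ℕ, p.Prime → Ap S 0 p ≤ C) ∧
    ∀ (P k : ℕ) (y : ℝ), 1 ≤ k →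
      ∑ p ∈ Nat.primesBelow (P + 1), Ap S 0 p / (1 + (k * Real.log p - y) ^ 2) ≤ C := by
  classical
  obtain ⟨C, hC0, hC⟩ := PSUM_rs S
  set Z : ℝ := ∑' i : ℤ, 1 / (1 + (i : ℝ) ^ 2) with hZ
  have hZ0 : 0 ≤ Z := tsum_nonneg fun i => by positivity
  set M : ℝ := (m : ℝ) with hM
  have hM0 : 0 ≤ M := Nat.cast_nonneg m
  refine ⟨M * C + M * (M ^ 2 * (9 * Real.exp 1 * C * Z)), by positivity, ?_, ?_⟩
  · intro p hp
    rw [PSUM_Ap S hp]
    have h1 : ∑ i ∈ Finset.Icc 1 m, ‖S.a (p ^ i)‖ ^ 2 / ((p ^ i : ℕ) : ℝ) ≤ M * C := by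
      calc ∑ i ∈ Finset.Icc 1 m, ‖S.a (p ^ i)‖ ^ 2 / ((p ^ i : ℕ) : ℝ)
          ≤ ∑ _i ∈ Finset.Icc 1 m, C := by
            apply Finset.sum_le_sum
            intro i _
            have hn : 0 < p ^ i := pow_pos hp.pos i
            have hn0 : (0 : ℝ) < ((p ^ i : ℕ) : ℝ) := by exact_mod_cast hn
            rw [div_le_iff₀ hn0]
            refine le_trans ?_ (hC (p ^ i))
            exact Finset.single_le_sum (f := fun n => ‖S.a n‖ ^ 2) (fun n _ => sq_nonneg _)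
              (Finset.mem_Icc.2 ⟨hn, le_rfl⟩)
        _ = M * C := by
            rw [Finset.sum_const, Nat.card_Icc, nsmul_eq_mul, Nat.add_sub_cancel]
    have h2 : 0 ≤ M * (M ^ 2 * (9 * Real.exp 1 * C * Z)) := by positivity
    linarith
  · intro P k y hk
    have hk1 : (1 : ℝ) ≤ k := by exact_mod_cast hk
    have hk0 : (0 : ℝ) < k := by linarith
    have h1 : ∀ i ∈ Finset.Icc 1 m, ∑ p ∈ Nat.primesBelow (P + 1),
        ‖S.a (p ^ i)‖ ^ 2 / ((p ^ i : ℕ) : ℝ) / (1 + (k * Real.log p - y) ^ 2) ≤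
          M ^ 2 * (9 * Real.exp 1 * C * Z) := by
      intro i hi
      rw [Finset.mem_Icc] at hi
      have hi0 : (0 : ℝ) < i := by exact_mod_cast hi.1
      have hi1 : (1 : ℝ) ≤ i := by exact_mod_cast hi.1
      have hiM : (i : ℝ) ≤ M := by rw [hM]; exact_mod_cast hi.2
      have hM1 : 1 ≤ M := hi1.trans hiM
      have h2 : ∀ p ∈ Nat.primesBelow (P + 1),
          ‖S.a (p ^ i)‖ ^ 2 / ((p ^ i : ℕ) : ℝ) / (1 + (k * Real.log p - y) ^ 2) ≤
          M ^ 2 * (‖S.a (p ^ i)‖ ^ 2 / ((p ^ i : ℕ) : ℝ) /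
            (1 + (Real.log ((p ^ i : ℕ) : ℝ) - y * i / k) ^ 2)) := by
        intro p hp
        have hpp := Nat.prime_of_mem_primesBelow hp
        have hlog : Real.log ((p ^ i : ℕ) : ℝ) = i * Real.log p := by
          rw [Nat.cast_pow, Real.log_pow]
        have h3 : 1 + (Real.log ((p ^ i : ℕ) : ℝ) - y * i / k) ^ 2 ≤
            M ^ 2 * (1 + (k * Real.log p - y) ^ 2) := by
          rw [hlog]
          have e : (i : ℝ) * Real.log p - y * i / k = (i / k) * (k * Real.log p - y) := by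
            field_simp
          rw [e, mul_pow]
          have h4 : ((i : ℝ) / k) ^ 2 ≤ M ^ 2 := by
            apply pow_le_pow_left₀ (by positivity)
            rw [div_le_iff₀ hk0]
            nlinarith
          have h5 : 1 ≤ M ^ 2 := by nlinarith
          nlinarith [sq_nonneg ((k : ℝ) * Real.log p - y),
            mul_le_mul_of_nonneg_right h4 (sq_nonneg ((k : ℝ) * Real.log p - y))]
        have hg : 0 ≤ ‖S.a (p ^ i)‖ ^ 2 / ((p ^ i : ℕ) : ℝ) := by positivity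
        rw [div_eq_mul_inv _ (1 + (k * Real.log p - y) ^ 2),
          div_eq_mul_inv _ (1 + (Real.log ((p ^ i : ℕ) : ℝ) - y * i / k) ^ 2), mul_left_comm]
        apply mul_le_mul_of_nonneg_left _ hg
        rw [← div_eq_mul_inv, le_div_iff₀ (by positivity), inv_mul_le_iff₀ (by positivity)]
        linarith
      refine (Finset.sum_le_sum h2).trans ?_
      rw [← Finset.mul_sum]
      apply mul_le_mul_of_nonneg_left _ (by positivity)
      have hinj : Set.InjOn (fun p : ℕ => p ^ i) (Nat.primesBelow (P + 1) : Set ℕ) := by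
        intro a _ b _ hab
        exact Nat.pow_left_injective (by omega : i ≠ 0) hab
      rw [← Finset.sum_image (s := Nat.primesBelow (P + 1)) (g := fun p : ℕ => p ^ i)
        (f := fun n : ℕ => ‖S.a n‖ ^ 2 / (n : ℝ) / (1 + (Real.log (n : ℝ) - y * i / k) ^ 2)) hinj]
      apply PS_main (fun n => ‖S.a n‖ ^ 2) (fun n => sq_nonneg _) C hC0 hC
      intro n hn
      rw [Finset.mem_image] at hn
      obtain ⟨p, hp, rfl⟩ := hn
      exact pow_pos (Nat.prime_of_mem_primesBelow hp).pos i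
    calc ∑ p ∈ Nat.primesBelow (P + 1), Ap S 0 p / (1 + (k * Real.log p - y) ^ 2)
        = ∑ i ∈ Finset.Icc 1 m, ∑ p ∈ Nat.primesBelow (P + 1),
          ‖S.a (p ^ i)‖ ^ 2 / ((p ^ i : ℕ) : ℝ) / (1 + (k * Real.log p - y) ^ 2) := by
          rw [Finset.sum_comm]
          apply Finset.sum_congr rfl
          intro p hp
          rw [PSUM_Ap S (Nat.prime_of_mem_primesBelow hp), Finset.sum_div]
      _ ≤ ∑ _i ∈ Finset.Icc 1 m, M ^ 2 * (9 * Real.exp 1 * C * Z) := Finset.sum_le_sum h1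
      _ = M * (M ^ 2 * (9 * Real.exp 1 * C * Z)) := by
          rw [Finset.sum_const, Nat.card_Icc, nsmul_eq_mul, Nat.add_sub_cancel]
      _ ≤ _ := by
          have : 0 ≤ M * C := by positivity
          linarith

end Pool.Agent.G5
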