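import Pool.Agent.Lib_helper44.G5.Defs
/-! G5 block ZR : no zeros far to the right -/

namespace Pool.Agent.G5

open Complex MeasureTheory Filter Topology

open Pool.Agent.G4

variable {m : ℕ}

theorem far_right_pr (W : WSys m) : ∃ b : ℝ, 1 < b ∧ ∀ (q : ℕ) (χ : DirichletCharacter ℂ q) (s : ℂ),
    b ≤ s.re → LSeries (fun n => W.a n * χ n) s ≠ 0 := by
  obtain ⟨C0, hC0⟩ := W.rs
  set C : ℝ := max C0 1 with hC
  have hC1 : 1 ≤ C := le_max_right _ _
  have ha : ∀ n : ℕ, 1 ≤ n → ‖W.a n‖ ≤ C * n := by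
    intro n hn
    have h1 : ‖W.a n‖ ^ 2 ≤ C * n := by
      have h2 : ‖W.a n‖ ^ 2 ≤ ∑ k ∈ Finset.Icc 1 n, ‖W.a k‖ ^ 2 :=
        Finset.single_le_sum (f := fun k => ‖W.a k‖ ^ 2) (fun k _ => by positivity)
          (Finset.mem_Icc.mpr ⟨hn, le_rfl⟩)
      have h3 : C0 * n ≤ C * n := mul_le_mul_of_nonneg_right (le_max_left _ _) (by positivity)
      linarith [hC0 n]
    have h4 : (1 : ℝ) ≤ C * n := by
      have : (1 : ℝ) ≤ n := by exact_mod_cast hn
      nlinarith
    by_contra h5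
    push Not at h5
    nlinarith
  set S : ℝ := ∑' n : ℕ, 1 / (n : ℝ) ^ 2 with hS
  have hsum : Summable (fun n : ℕ => 1 / (n : ℝ) ^ 2) :=
    Real.summable_one_div_nat_pow.2 (by norm_num : 1 < 2)
  have hS0 : 0 ≤ S := tsum_nonneg fun n => by positivity
  obtain ⟨k, hk⟩ := exists_pow_lt_of_lt_one (show 0 < 1 / (C * S + 1) by positivity)
    (show (1 / 2 : ℝ) < 1 by norm_num)
  refine ⟨k + 3, by linarith [(Nat.cast_nonneg k : (0 : ℝ) ≤ k)], fun q χ s hs => ?_⟩
  set f : ℕ → ℂ := fun n => W.a n * χ n with hf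
  have hterm : ∀ n : ℕ, 2 ≤ n → ‖LSeries.term f s n‖ ≤ C * (1 / 2) ^ k * (1 / (n : ℝ) ^ 2) := by
    intro n hn
    have hn0 : n ≠ 0 := by omega
    have hn2 : (2 : ℝ) ≤ n := by exact_mod_cast hn
    have hnp : (0 : ℝ) < n := by linarith
    rw [LSeries.norm_term_eq, if_neg hn0]
    have h1 : ‖f n‖ ≤ C * n := by
      rw [hf]
      simp only [norm_mul]
      calc ‖W.a n‖ * ‖χ n‖ ≤ ‖W.a n‖ * 1 :=
            mul_le_mul_of_nonneg_left (DirichletCharacter.norm_le_one χ _) (norm_nonneg _)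
        _ ≤ C * n := by rw [mul_one]; exact ha n (by omega)
    have h2 : (n : ℝ) ^ (k + 3) ≤ (n : ℝ) ^ s.re := by
      rw [← Real.rpow_natCast]
      refine Real.rpow_le_rpow_of_exponent_le (by linarith) ?_
      push_cast
      exact hs
    rw [div_le_iff₀ (by positivity)]
    calc ‖f n‖ ≤ C * n := h1
      _ ≤ C * (1 / 2) ^ k * (1 / (n : ℝ) ^ 2) * (n : ℝ) ^ (k + 3) := by
        have h3 : C * (1 / 2) ^ k * (1 / (n : ℝ) ^ 2) * (n : ℝ) ^ (k + 3) =
            C * n * (n / 2) ^ k := by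
          rw [div_pow, div_pow, one_pow]
          field_simp
          ring
        rw [h3]
        have h4 : (1 : ℝ) ≤ (n / 2) ^ k := one_le_pow₀ (by linarith)
        have h5 : 0 ≤ C * n := by positivity
        nlinarith
      _ ≤ C * (1 / 2) ^ k * (1 / (n : ℝ) ^ 2) * (n : ℝ) ^ s.re :=
        mul_le_mul_of_nonneg_left h2 (by positivity)
  set g : ℕ → ℂ := fun n => if n = 1 then 0 else LSeries.term f s n with hg
  have hgb : ∀ n, ‖g n‖ ≤ C * (1 / 2) ^ k * (1 / (n : ℝ) ^ 2) := by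
    intro n
    rw [hg]
    simp only
    split_ifs with h1
    · rw [norm_zero]; positivity
    · rcases Nat.eq_zero_or_pos n with h2 | h2
      · rw [h2, LSeries.term_zero, norm_zero]; positivity
      · exact hterm n (by omega)
  have hgs : Summable (fun n : ℕ => C * (1 / 2) ^ k * (1 / (n : ℝ) ^ 2)) := hsum.mul_left _
  have hgsum : Summable g := Summable.of_norm_bounded hgs hgb
  have hnorm : ‖∑' n, g n‖ < 1 := by
    have h1 : ‖∑' n, g n‖ ≤ C * (1 / 2) ^ k * S := by
      rw [hS, ← tsum_mul_left]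
      exact tsum_of_norm_bounded hgs.hasSum hgb
    refine h1.trans_lt ?_
    have h2 : (1 / 2 : ℝ) ^ k * (C * S + 1) < 1 := by
      rw [lt_div_iff₀ (by positivity)] at hk
      exact hk
    have h3 : (0 : ℝ) < (1 / 2) ^ k := by positivity
    nlinarith
  have h1 : LSeries.term f s 1 = 1 := by
    rw [LSeries.term_of_ne_zero one_ne_zero, hf]
    simp [W.a_one]
  have hh : HasSum (LSeries.term f s) (1 + ∑' n, g n) := by
    have h2 : HasSum (fun n : ℕ => if n = 1 then (1 : ℂ) else 0) 1 := by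
      simpa using hasSum_ite_eq 1 (1 : ℂ)
    have h3 := h2.add hgsum.hasSum
    refine h3.congr_fun fun n => ?_
    rw [hg]
    simp only
    split_ifs with h4
    · rw [h4, h1, add_zero]
    · rw [zero_add]
  intro h0
  unfold LSeries at h0
  rw [hh.tsum_eq] at h0
  have h2 : ∑' n, g n = -1 := by linear_combination h0
  rw [h2, norm_neg, norm_one] at hnorm
  exact lt_irrefl _ hnorm

end Pool.Agent.G5
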